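import Pool.Agent.Lib.JM_H15.Basic

/-!
# Lemma R: a bound for the number of homomorphisms with a common specialisation
-/

set_option autoImplicit false

namespace Pool.Agent.TG46

open Pool.Agent.H15JM (RVal)

variable {k R Ω : Type*} [Field k] [CommRing R] [Algebra k R] [Field Ω] [Algebra k Ω]

theorem ge_mul {v : RVal Ω} {x y : Ω} {c d : ℝ} (hx : v.Ge c x) (hy : v.Ge d y) :
    v.Ge (c + d) (x * y) := by
  intro h0
  have hx0 : x ≠ 0 := left_ne_zero_of_mul h0
  have hy0 : y ≠ 0 := right_ne_zero_of_mul h0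
  rw [v.map_mul hx0 hy0]
  exact add_le_add (hx hx0) (hy hy0)

theorem ge_sum {v : RVal Ω} {κ : Type*} (t : Finset κ) (f : κ → Ω) (c : ℝ)
    (hf : ∀ i ∈ t, v.Ge c (f i)) : v.Ge c (∑ i ∈ t, f i) := by
  classical
  induction t using Finset.induction_on with
  | empty => rw [Finset.sum_empty]; exact RVal.Ge.zero
  | insert b t hb ih =>
    rw [Finset.sum_insert hb]
    exact (hf b (Finset.mem_insert_self b t)).add
      (ih fun i hi => hf i (Finset.mem_insert_of_mem hi))

/-- `R` is, modulo `(z, h)` and modulo every power of `m`, spanned by `θ`. Then at most `C`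
homomorphisms to a field with a real valuation have the same values at `z`, kill `h` and are
positive on `z` and `m`. -/
theorem lemR (v : RVal Ω) {C : ℕ} {ι : Type*} [Finite ι] (θ : Fin C → R) (z : ι → R)
    (m : Ideal R) (h : R)
    (hspan : ∀ (M : ℕ) (r : R), ∃ a : Fin C → k,
      r - ∑ i, a i • θ i ∈ Ideal.span (Set.range z) ⊔ Ideal.span {h} ⊔ m ^ M)
    {N : ℕ} (ξ : Fin N → (R →ₐ[k] Ω)) (hinj : Function.Injective ξ)
    (hh : ∀ s, ξ s h = 0) (ζ : ι → Ω) (hz : ∀ s i, ξ s (z i) = ζ i)
    (hR : ∀ s r, v.Ge 0 (ξ s r))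
    {a : ℝ} (ha : 0 < a) (hζ : ∀ i, v.Ge a (ζ i)) (hm : ∀ s, ∀ y ∈ m, v.Ge a (ξ s y)) :
    N ≤ C := by
  classical
  have := Fintype.ofFinite ι
  by_contra hlt
  rw [not_le] at hlt
  -- a nonzero relation
  let L : (Fin N → Ω) →ₗ[Ω] (Fin C → Ω) :=
    LinearMap.pi fun i => ∑ s, (ξ s (θ i)) • LinearMap.proj s
  have hker : LinearMap.ker L ≠ ⊥ := by
    apply LinearMap.ker_ne_bot_of_finrank_lt
    simpa using hlt
  obtain ⟨l, hl, hl0⟩ := (Submodule.ne_bot_iff _).1 hker
  have hl' : ∀ i, ∑ s, l s * ξ s (θ i) = 0 := by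
    intro i
    have h1 := congrFun (LinearMap.mem_ker.1 hl) i
    simp only [L, LinearMap.pi_apply, LinearMap.sum_apply, LinearMap.smul_apply,
      LinearMap.proj_apply, smul_eq_mul, Pi.zero_apply] at h1
    rw [← h1]
    exact Finset.sum_congr rfl fun s _ => mul_comm _ _
  -- the functional
  let Λ : R → Ω := fun r => ∑ s, l s * ξ s r
  have hΛadd : ∀ r r', Λ (r + r') = Λ r + Λ r' := by
    intro r r'
    simp only [Λ, map_add, mul_add, Finset.sum_add_distrib]
  have hΛsum : ∀ (t : Finset ι) (f : ι → R), Λ (∑ i ∈ t, f i) = ∑ i ∈ t, Λ (f i) := by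
    intro t f
    simp only [Λ, map_sum, Finset.mul_sum]
    exact Finset.sum_comm
  have hΛz : ∀ i r, Λ (z i * r) = ζ i * Λ r := by
    intro i r
    simp only [Λ, map_mul, hz, Finset.mul_sum]
    exact Finset.sum_congr rfl fun s _ => by ring
  have hΛh : ∀ r, Λ (h * r) = 0 := by
    intro r
    simp only [Λ, map_mul, hh, zero_mul, mul_zero, Finset.sum_const_zero]
  have hΛθ : ∀ b : Fin C → k, Λ (∑ i, b i • θ i) = 0 := by
    intro b
    simp only [Λ, map_sum, map_smul, Finset.mul_sum]
    rw [Finset.sum_comm]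
    refine Finset.sum_eq_zero fun i _ => ?_
    have h1 : ∀ s, l s * (b i • ξ s (θ i)) = b i • (l s * ξ s (θ i)) := by
      intro s
      rw [mul_smul_comm]
    rw [Finset.sum_congr rfl fun s _ => h1 s, ← Finset.smul_sum, hl' i, smul_zero]
  -- a lower bound for the values of the coefficients
  obtain ⟨c0, hc0⟩ : ∃ c0 : ℝ, ∀ s, v.Ge c0 (l s) := by
    refine ⟨-∑ s, |v (l s)|, fun s _ => ?_⟩
    have h1 : |v (l s)| ≤ ∑ s, |v (l s)| :=
      Finset.single_le_sum (f := fun s => |v (l s)|) (fun _ _ => abs_nonneg _)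
        (Finset.mem_univ s)
    have h2 := neg_abs_le (v (l s))
    linarith
  -- powers of `m`
  have hpow : ∀ (M : ℕ) (s : Fin N), ∀ y ∈ m ^ M, v.Ge (M * a) (ξ s y) := by
    intro M s
    induction M with
    | zero =>
      intro y _
      simpa using hR s y
    | succ M ih =>
      intro y hy
      rw [pow_succ] at hy
      refine Submodule.mul_induction_on hy (fun x hx y hy => ?_) fun x y hx hy => ?_
      · rw [map_mul]
        have := ge_mul (ih x hx) (hm s y hy)
        convert this using 1
        push_cast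
        ring
      · rw [map_add]
        exact hx.add hy
  have key : ∀ S : ℕ, ∀ r : R, v.Ge (S * a + c0) (Λ r) := by
    intro S
    induction S with
    | zero =>
      intro r
      refine ge_sum _ _ _ fun s _ => ?_
      have := ge_mul (hc0 s) (hR s r)
      convert this using 1
      simp
    | succ S ih =>
      intro r
      obtain ⟨b, hb⟩ := hspan (S + 1) r
      obtain ⟨u, hu, w, hw, huw⟩ := Submodule.mem_sup.1 hb
      obtain ⟨u₁, hu₁, u₂, hu₂, hu12⟩ := Submodule.mem_sup.1 hu
      obtain ⟨f, hf⟩ := (Ideal.mem_span_range_iff_exists_fun).1 hu₁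
      obtain ⟨g, hg⟩ := Ideal.mem_span_singleton'.1 hu₂
      have hr : r = ∑ i, b i • θ i + (∑ i, z i * f i + h * g + w) := by
        have h1 : ∑ i, z i * f i = u₁ := by
          rw [← hf]
          exact Finset.sum_congr rfl fun i _ => mul_comm _ _
        have h2 : h * g = u₂ := by rw [← hg, mul_comm]
        rw [h1, h2, hu12, huw]
        ring
      rw [hr, hΛadd, hΛθ, zero_add, hΛadd, hΛadd, hΛh, add_zero, hΛsum]
      refine (ge_sum _ _ _ fun i _ => ?_).add ?_
      · rw [hΛz]
        have := ge_mul (hζ i) (ih (f i))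
        convert this using 1
        push_cast
        ring
      · refine ge_sum _ _ _ fun s _ => ?_
        have := ge_mul (hc0 s) (hpow (S + 1) s w hw)
        convert this using 1
        ring
  have hzero : ∀ r, Λ r = 0 := by
    intro r
    by_contra hne
    obtain ⟨S, hS⟩ := exists_nat_gt ((v (Λ r) - c0) / a)
    have h1 := key S r hne
    rw [div_lt_iff₀ ha] at hS
    linarith
  -- linear independence of homomorphisms
  have hli := linearIndependent_monoidHom R Ω
  have hli2 := hli.comp (fun s : Fin N => ((ξ s : R →+* Ω) : R →* Ω)) (by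
    intro s t hst
    apply hinj
    ext r
    have := congrArg (fun f : R →* Ω => f r) hst
    simpa using this)
  rw [Fintype.linearIndependent_iff] at hli2
  apply hl0
  funext s
  refine hli2 l ?_ s
  funext r
  have := hzero r
  simpa [Λ, Finset.sum_apply] using this

end Pool.Agent.TG46
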